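import Pool.Agent.J4.H93.WK.AB

/-!
# Klt pairs on the models of all components of almost all members of all polynomial families of systems of monomials

The exponents of the monomials are any polynomials `A e i j` (form `e`, monomial `i`, variable `j`) with integral coefficients in
`m` parameters `t_1, …, t_m`. We consider the complex projective varieties given by forms `F e` with arbitrary coefficients, such
that all exponent vectors which occur in `F e` are among the `A e i (t)`.

**Theorem.** Assume one of the following conditions.
* `NoConstantWidthsR A`: take a set `I` of variables and at most `n` pairs of exponent vectors (of the same form) in the variables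
  from `I`; if the widths of these pairs with respect to a direction `u` with polynomial entries vanish only if `u` is constant on
  `I`, then they are all integers only if `u` is constant on `I`.
* At some integral point, the same for all `e`, the exponent vectors `A e i` of each form `e` coincide: for example, linear forms in
  the parameters such as `t_1 p_i + t_2 q_i + …`, and the family of all the tuples of monomials.

Then, for all parameters `t` outside of a sparse set `E`, `AbundanceComponents F` for all these systems of forms: let `V` be any
irreducible component, of dimension `w ≥ 1`, of `{F = 0}`, and let `(X, Δ)` be any klt pair, `X` a normal projective variety which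
is birational to `V` and `Δ` an effective `ℚ`-divisor.
* If no one-parameter group of diagonal matrices acts on `V`, then `κ (K_X + Δ) = ν (K_X + Δ) = w`.
* If such a group acts on `V`, and each prime divisor over `X` with negative discrepancy lies over a coordinate hyperplane or is
  invariant under the one-parameter groups of diagonal matrices which act on `V` (for instance, if the singularities of `X` are
  canonical and `Δ` is supported on the divisors which lie over the coordinate hyperplanes), then
  `κ (K_X + Δ) = ν (K_X + Δ) = -∞` and `K_X + Δ` is not nef.
So for all these pairs `κ = ν`, and if `K_X + Δ` is nef then it is nef and big (and then it is semiample by the base point free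
theorem, which we do not prove here). `E` is sparse: for every `η > 0` the proportion of the elements of `E` in each product
`S_1 × ⋯ × S_m` of sets `S_i ⊆ {0, …, H}` with at least `q` elements is at most `C H ^ η / q`.

There is no condition on the singularities of `V`, on its dimension, on the coefficients of the forms and on the coefficients of
`Δ`.

Proof. (1) By the results of `Pool/Agent/J4/H93/WS` the systems of forms are wide for all `t` outside of a sparse set. (2) The
components of wide systems of forms are of general type, or a one-parameter group of diagonal matrices acts on them
(`Pool.Agent.R869.Wd.general_or_ruled`). (3) In the second case the pluricanonical sections of `m (K_X + Δ) + t A` vanish for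
`m ≥ N₀ t`, as we see on the closures of the orbits (`Pool/Agent/N133/PC6`, `Pool/Agent/J4/H93/WK/NF`).
-/

set_option autoImplicit false

namespace Pool.Agent.Results.MP_9a2ae6_ag.PolynomialFamilies

open MvPolynomial Pool.Agent.J4.H93.WS Pool.Agent.J4.H93.WK.AB Pool.Agent.R869.Wd

/-- For all parameters `t` outside of a sparse set, `AbundanceComponents F` for all systems of forms whose exponent vectors are
among the values `A e i (t)`. -/
theorem result {m n s : ℕ} {ι : Type} [Finite ι] (A : ι → Fin s → Fin (n + 1) → MvPolynomial (Fin m) ℤ)
    (hdeg : ∀ e i i', ∑ j, A e i j = ∑ j, A e i' j)
    (hA : NoConstantWidthsR A ∨ ∃ t₀ : Fin m → ℤ, ∀ e i i' j, eval t₀ (A e i j) = eval t₀ (A e i' j)) :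
    Sparse {t : Fin m → ℕ | ¬ ∀ F : ι → MvPolynomial (Fin (n + 1)) ℂ,
      (∀ e, ∀ α ∈ (F e).support, ∃ i, ∀ j, (α j : ℤ) = eval (fun k => (t k : ℤ)) (A e i j)) → AbundanceComponents F} := by
  obtain ⟨N, hN⟩ : ∃ N, N = (s + 1) * (n * Pool.Agent.R869.tri (s + 1 - 1)) + 1 := ⟨_, rfl⟩
  refine (wide_several' hdeg hA N).mono fun t ht hcon => ht fun F hF => ?_
  exact abundance_of_sys (sys_of_wide (fun e i i' => by rw [← map_sum, ← map_sum, hdeg e i i']) hcon (by omega)
    fun e α hα => mem_expT.2 (hF e α hα))

end Pool.Agent.Results.MP_9a2ae6_ag.PolynomialFamilies
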