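import Pool.Agent.J4.H20.RT.Main

/-!
# Abundance for pairs with real coefficients on quotients of complex tori

Let `X = V / Γ` be the quotient of a complex torus of any dimension, projective or not, by any finite
group, which may contain reflections, so that `V → X` may be ramified along divisors and `K_X` may be
negative. Let `B_1, ..., B_k` be effective integral Weil divisors on `X`. The theorem: there are finitely
many fibrations `f_j : X → Z_j` such that for all real numbers `b_1, ..., b_k ≥ 0` the real divisor
`K_X + B`, `B = ∑ b_i B_i`, is nef if and only if it is semiample, and in this case `K_X + B = f_j^* A` as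
real line bundles, for some `j` and an ample real divisor `A` on `Z_j`, a positive real combination of
ample line bundles.

The proof. Let `H` be the Chern form of `K_X + B`, let `K` be its kernel and `N` the group of the linear
parts of elements of `Γ` which act trivially on `V / K`. The main point is that `K` is spanned by
lattice vectors, although `b` is not rational. A vector in `K` which is fixed by `N` is fixed by all
reflections in `Γ`. The vectors fixed by all reflections form a subspace spanned by lattice vectors, and
the function `ρ` which defines the ramification divisor has no zeros on a general translate of it, so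
the Chern form of `K_X` vanishes on it. Hence `K ^ N` is contained in the intersection of this subspace
with the kernels of the Chern forms of the `B_i` with `b_i > 0`, which is contained in `K`, and `K` is the
sum of this intersection, which is spanned by lattice vectors, and of the images of `g - 1`, `g ∈ N`. This
also gives only finitely many possibilities for `K`. Therefore `b` is a positive combination of rational
points near `b`, with the same support, for which the Chern form is semipositive with the same kernel
`K`. For these the character of the lattice vectors in `K` is torsion, by the argument of the starting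
result `TorusQuotientPairs`, so that they give multiples of pullbacks of ample line bundles under the
same map.

`WeilClass` (Weil divisors, as factors of automorphy of `Γ`), `IsSection` and `HasChernForm` are defined in
`Pool.Agent.R800.UA.WeilDefs`; `RealClass` (the tensor product of the class group with `ℝ`), `cls`,
`IsPull`, `IsAmplePullback`, `IsCanonical` and `chernSum` in `Pool.Agent.J4.H20.RT.Defs`; `latt`,
`IsTorusQuotient` and `LineBundle` in `Pool.Agent.W594.SYZ.Defs2`; `IsChernForm`, `IsNefForm` and
`IsPositiveForm` in `Pool.Agent.W594.SYZ.TQDefs`; `IsFibration` in `Pool.Agent.TH735.AQ.Defs`;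
`IsRamification` in `Pool.Agent.TH735.AQ.MirDefs`.
-/

set_option autoImplicit false

namespace Pool.Agent.Results.MP_9a2ae6_ag.RealTorusQuotientPairs

open Pool.Agent.W594.SYZ2 Pool.Agent.TH735.AQ Pool.Agent.R800.UA Pool.Agent.J4.H20.RT

/-- Let `X = V / Γ` be a quotient of a complex torus by a finite group, `ρ` an entire function which
defines the ramification divisor of `V → X`, `K` the canonical class of `X`, and `B i` the classes of
effective Weil divisors whose pullbacks to `V` are defined by the entire functions `β i`, not zero. There
are finitely many fibrations `X → W_j / Δ_j`, given by linear maps `π j`, such that for all real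
`b i ≥ 0` the class `K + ∑ b i • B i` is nef if and only if it is the pullback of an ample real divisor
under one of them. -/
theorem result {V : Type*} [NormedAddCommGroup V] [NormedSpace ℂ V] [FiniteDimensional ℂ V]
    (Γ : Subgroup (V ≃ᵃ[ℂ] V)) (hΓ : IsTorusQuotient Γ) (ρ : V → ℂ) (hρ : IsRamification Γ ρ)
    (K : WeilClass Γ) (hK : IsCanonical K ρ) (HK : V → V → ℂ) (hcK : K.HasChernForm HK)
    (k : ℕ) (B : Fin k → WeilClass Γ) (β : Fin k → V → ℂ) (hβ : ∀ i, (B i).IsSection (β i))
    (hβ0 : ∀ i, ∃ v, β i v ≠ 0) (HB : Fin k → V → V → ℂ) (hcB : ∀ i, (B i).HasChernForm (HB i)) :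
    ∃ (N : ℕ) (n : Fin N → ℕ) (Δ : ∀ j, Subgroup ((Fin (n j) → ℂ) ≃ᵃ[ℂ] (Fin (n j) → ℂ)))
      (π : ∀ j, V →ₗ[ℂ] (Fin (n j) → ℂ)), (∀ j, IsFibration Γ (Δ j) (π j)) ∧
      ∀ b : Fin k → ℝ, (∀ i, 0 ≤ b i) →
        (IsNefForm (chernSum HK HB b) ↔
          ∃ j, IsAmplePullback (cls K + ∑ i, b i • cls (B i)) (chernSum HK HB b) (Δ j) (π j)) := by
  obtain ⟨N, n, Δ, π, h1, h2⟩ := finite_models hΓ hρ hK hcK hβ hβ0 hcB
  refine ⟨N, n, Δ, π, h1, fun b hb => ⟨fun hn => ?_, fun ⟨_, h⟩ => nef_of_pullback h⟩⟩
  obtain ⟨j, -, h⟩ := h2 b hb hn
  exact ⟨j, h⟩

end Pool.Agent.Results.MP_9a2ae6_ag.RealTorusQuotientPairs
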